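import Pool.Agent.H69.ILV.TRN

set_option autoImplicit false

open MeasureTheory AddCircle Filter Topology Pool.Agent.H87.Synth Pool.Agent.H23.Synth
  Pool.Agent.H95.ILV

namespace Pool.Agent.H69.ILV

/-- an even number next to `x` -/
def ev (x : ℕ) : ℤ := if x % 2 = 0 then (x : ℤ) else (x : ℤ) + 1

/-- an odd number next to `x` -/
def od (x : ℕ) : ℤ := if x % 2 = 0 then (x : ℤ) + 1 else (x : ℤ)

theorem ev_mod (x : ℕ) : ev x % 2 = 0 := by
  unfold ev
  split_ifs <;> omega

theorem od_mod (x : ℕ) : od x % 2 = 1 := by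
  unfold od
  split_ifs <;> omega

theorem ev_le (x : ℕ) : x ≤ (ev x).natAbs ∧ (ev x).natAbs ≤ x + 1 := by
  unfold ev
  split_ifs <;> omega

theorem od_le (x : ℕ) : x ≤ (od x).natAbs ∧ (od x).natAbs ≤ x + 1 := by
  unfold od
  split_ifs <;> omega

theorem log_succ_le (i : ℕ) : Nat.log 2 (i + 2) ≤ Nat.log 2 (i + 1) + 1 := by
  have h : Nat.log 2 ((i + 1) * 2) = Nat.log 2 (i + 1) + 1 :=
    Nat.log_mul_base (by norm_num) (by omega)
  rw [← h]
  exact Nat.log_mono_right (by omega)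

/-- the sum over the changes of the logarithm -/
theorem sum_G (C : ℝ) (hC : 0 ≤ C) (I : ℕ) :
    ∑ i ∈ Finset.range I, 3 ^ Nat.log 2 (i + 1) *
      (if Nat.log 2 (i + 2) = Nat.log 2 (i + 1) then 0 else C * (1 / 8) ^ Nat.log 2 (i + 1)) ≤
      C * (8 / 5) * (1 - (3 / 8) ^ Nat.log 2 (I + 1)) := by
  induction I with
  | zero => simp
  | succ I ih =>
    rw [Finset.sum_range_succ]
    rw [show I + 1 + 1 = I + 2 from rfl]
    by_cases h : Nat.log 2 (I + 2) = Nat.log 2 (I + 1)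
    · rw [if_pos h, h, mul_zero, add_zero]
      exact ih
    · rw [if_neg h]
      have h1 := log_succ_le I
      have h2 : Nat.log 2 (I + 1) ≤ Nat.log 2 (I + 2) := Nat.log_mono_right (by omega)
      have h3 : Nat.log 2 (I + 2) = Nat.log 2 (I + 1) + 1 := by omega
      rw [h3]
      set k := Nat.log 2 (I + 1)
      have h4 : (3 : ℝ) ^ k * (C * (1 / 8) ^ k) = C * (3 / 8) ^ k := by
        have : (3 / 8 : ℝ) ^ k = 3 ^ k * (1 / 8) ^ k := by
          rw [← mul_pow]
          norm_num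
        rw [this]
        ring
      rw [h4, pow_succ]
      have : C * (8 / 5) * (1 - (3 / 8) ^ k * (3 / 8)) =
          C * (8 / 5) * (1 - (3 / 8) ^ k) + C * (3 / 8) ^ k := by
        ring
      rw [this]
      exact add_le_add ih le_rfl

theorem pow_log_le (i : ℕ) : (3 : ℝ) ^ Nat.log 2 (i + 1) ≤ ((i : ℝ) + 1) ^ 2 := by
  have h1 : 2 ^ Nat.log 2 (i + 1) ≤ i + 1 := Nat.pow_log_le_self 2 (by omega)
  have h2 : ((2 : ℝ) ^ Nat.log 2 (i + 1)) ≤ (i : ℝ) + 1 := by exact_mod_cast h1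
  calc (3 : ℝ) ^ Nat.log 2 (i + 1) ≤ 4 ^ Nat.log 2 (i + 1) :=
        pow_le_pow_left₀ (by norm_num) (by norm_num) _
    _ = ((2 : ℝ) ^ Nat.log 2 (i + 1)) ^ 2 := by
        rw [← pow_mul, mul_comm, pow_mul]
        norm_num
    _ ≤ ((i : ℝ) + 1) ^ 2 := pow_le_pow_left₀ (by positivity) h2 _

theorem Bd_ge (h4 : T_GEL) {c : ℕ} {T M u : ℕ → ℕ} {κ : ℕ → ℕ → ℕ} (hG : Geo c T M u κ)
    (i : ℕ) : i ≤ Bd M κ i := by
  obtain ⟨-, -, gc, -, -, -⟩ := h4 c T M u κ hG
  induction i with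
  | zero => exact Nat.zero_le _
  | succ i ih =>
    have h := gc i (i + 1) (Nat.lt_succ_self i)
    have := hG.u2 i
    omega

theorem pf_DST (h1 : T_REG) (h2 : T_TRN) (h3 : T_PLR) (h4 : T_GEL) : T_DST := by
  intro C s γ hC hs c T M u κ f hG hF
  set A : ℕ → ℝ := fun i => ((i : ℝ) + 1) ^ 3 * (√(M i) / T i) with hA
  have hAnn : ∀ i, 0 ≤ A i := fun i => by positivity
  have hAs : Summable A := hG.sm
  set S : ℝ := 40 * (9 + 2 * c) * ∑' i, A i + C * (8 / 5) with hS
  have hSnn : 0 ≤ S := by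
    have : 0 ≤ ∑' i, A i := tsum_nonneg hAnn
    positivity
  refine ⟨2 / (2 + S), by positivity, fun p hp => ?_⟩
  obtain ⟨-, gb, gc, -, -, -⟩ := h4 c T M u κ hG
  set H : ℝ := ‖f - poly p‖ with hH
  have hHnn : 0 ≤ H := norm_nonneg _
  set N : ℕ → ℤ := fun i => ev (Bd M κ i + 4 * u i) with hN
  set O : ℕ → ℤ := fun i => od (Bd M κ i + 4 * u i) with hO
  set N' : ℕ → ℤ := fun i => ev (Bd M κ i) with hN'
  set O' : ℕ → ℤ := fun i => od (Bd M κ i) with hO'
  set X : ℕ → ℝ := fun i => ‖p (N i) - p (O i)‖ with hX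
  set ep : ℕ → ℝ := fun i => 20 * √(M i) / T i * (7 + 2 * c + 2 * i) with hep
  set Gf : ℕ → ℝ := fun i => if Nat.log 2 (i + 2) = Nat.log 2 (i + 1) then 0
    else C * (1 / 8) ^ Nat.log 2 (i + 1) with hGf
  -- one step
  have hstep : ∀ i, X i ≤ (2 * ep i + Gf i) * H +
      3 ^ (Nat.log 2 (i + 2) - Nat.log 2 (i + 1)) * X (i + 1) := by
    intro i
    have a1 := ev_le (Bd M κ i + 4 * u i)
    have a2 := od_le (Bd M κ i + 4 * u i)
    have a3 := ev_le (Bd M κ (i + 1))
    have a4 := od_le (Bd M κ (i + 1))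
    have a5 := ev_le (Bd M κ (i + 1) + 4 * u (i + 1))
    have a6 := od_le (Bd M κ (i + 1) + 4 * u (i + 1))
    have b1 := hG.step i
    have b2 := hG.step (i + 1)
    have b3 := hG.u2 i
    have b4 := hG.u2 (i + 1)
    have c1 := h1 c T M u κ s f hG hF p hp i (N i) (N' (i + 1))
      (by rw [hN, hN']; simp only [ev_mod]) (by simp only [hN]; omega) (by simp only [hN]; omega)
      (by simp only [hN']; omega) (by simp only [hN']; omega)
    have c2 := h1 c T M u κ s f hG hF p hp i (O i) (O' (i + 1))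
      (by rw [hO, hO']; simp only [od_mod]) (by simp only [hO]; omega) (by simp only [hO]; omega)
      (by simp only [hO']; omega) (by simp only [hO']; omega)
    have c3 := h2 C s γ hs c T M u κ f hG hF p hp i (N' (i + 1)) (O' (i + 1)) (N (i + 1))
      (O (i + 1)) (ev_mod _) (od_mod _) (ev_mod _) (od_mod _)
      (by simp only [hN']; omega) (by simp only [hN']; omega)
      (by simp only [hO']; omega) (by simp only [hO']; omega)
      (by simp only [hN]; omega) (by simp only [hN]; omega)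
      (by simp only [hO]; omega) (by simp only [hO]; omega)
    have c4 : p (N i) - p (O i) = (p (N i) - p (N' (i + 1))) +
        (p (N' (i + 1)) - p (O' (i + 1))) - (p (O i) - p (O' (i + 1))) := by ring
    have c5 : X i ≤ ‖p (N i) - p (N' (i + 1))‖ + ‖p (N' (i + 1)) - p (O' (i + 1))‖ +
        ‖p (O i) - p (O' (i + 1))‖ := by
      show ‖p (N i) - p (O i)‖ ≤ _
      rw [c4]
      exact (norm_sub_le _ _).trans (add_le_add (norm_add_le _ _) le_rfl)
    have c6 : ‖p (N (i + 1)) - p (O (i + 1))‖ = X (i + 1) := rfl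
    rw [c6] at c3
    have c7 : ‖p (N i) - p (N' (i + 1))‖ ≤ ep i * H := c1
    have c8 : ‖p (O i) - p (O' (i + 1))‖ ≤ ep i * H := c2
    have c9 : ‖p (N' (i + 1)) - p (O' (i + 1))‖ ≤
      3 ^ (Nat.log 2 (i + 2) - Nat.log 2 (i + 1)) * X (i + 1) + Gf i * H := c3
    linarith
  -- iteration
  have hiter : ∀ I, X 0 ≤ (∑ i ∈ Finset.range I, 3 ^ Nat.log 2 (i + 1) * (2 * ep i + Gf i)) * H +
      3 ^ Nat.log 2 (I + 1) * X I := by
    intro I
    induction I with
    | zero => simp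
    | succ I ih =>
      refine ih.trans ?_
      rw [Finset.sum_range_succ, add_mul, add_assoc]
      refine add_le_add le_rfl ?_
      have d1 := mul_le_mul_of_nonneg_left (hstep I)
        (by positivity : (0 : ℝ) ≤ 3 ^ Nat.log 2 (I + 1))
      refine d1.trans (le_of_eq ?_)
      have d2 : Nat.log 2 (I + 1) ≤ Nat.log 2 (I + 2) := Nat.log_mono_right (by omega)
      have d3 : (3 : ℝ) ^ Nat.log 2 (I + 2) =
          3 ^ Nat.log 2 (I + 1) * 3 ^ (Nat.log 2 (I + 2) - Nat.log 2 (I + 1)) := by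
        rw [← pow_add]
        congr 1
        omega
      show _ = _ + 3 ^ Nat.log 2 (I + 2) * X (I + 1)
      rw [d3]
      ring
  -- the tail vanishes
  obtain ⟨B, hB⟩ : ∃ B : ℕ, ∀ n : ℤ, B ≤ n.natAbs → p n = 0 := by
    refine ⟨(p.support.sup Int.natAbs) + 1, fun n hn => ?_⟩
    by_contra hne
    have hmem : n ∈ p.support := Finsupp.mem_support_iff.2 hne
    have := Finset.le_sup (f := Int.natAbs) hmem
    omega
  have hXB : X B = 0 := by
    have e1 := Bd_ge h4 hG B
    have a1 := ev_le (Bd M κ B + 4 * u B)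
    have a2 := od_le (Bd M κ B + 4 * u B)
    show ‖p (N B) - p (O B)‖ = 0
    rw [hB (N B) (by simp only [hN]; omega), hB (O B) (by simp only [hO]; omega), sub_zero,
      norm_zero]
  -- the sum
  have hsum : ∑ i ∈ Finset.range B, 3 ^ Nat.log 2 (i + 1) * (2 * ep i + Gf i) ≤ S := by
    have f1 : ∀ i ∈ Finset.range B, 3 ^ Nat.log 2 (i + 1) * (2 * ep i + Gf i) ≤
        40 * (9 + 2 * c) * A i + 3 ^ Nat.log 2 (i + 1) * Gf i := by
      intro i _
      rw [mul_add]
      refine add_le_add ?_ le_rfl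
      have g1 := pow_log_le i
      have hq : 0 ≤ √(M i : ℝ) / T i := by positivity
      have g2 : 2 * ep i = 40 * (√(M i : ℝ) / T i) * (7 + 2 * c + 2 * i) := by
        simp only [hep]
        ring
      have g3 : (7 + 2 * (c : ℝ) + 2 * i) ≤ (9 + 2 * c) * ((i : ℝ) + 1) := by
        have i0 : (0 : ℝ) ≤ i := Nat.cast_nonneg i
        have c0 : (0 : ℝ) ≤ c := Nat.cast_nonneg c
        nlinarith
      calc 3 ^ Nat.log 2 (i + 1) * (2 * ep i)
          ≤ ((i : ℝ) + 1) ^ 2 * (40 * (√(M i : ℝ) / T i) * ((9 + 2 * c) * ((i : ℝ) + 1))) := by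
            rw [g2]
            refine mul_le_mul g1 ?_ (by positivity) (by positivity)
            exact mul_le_mul_of_nonneg_left g3 (by positivity)
        _ = 40 * (9 + 2 * c) * A i := by
            simp only [hA]
            ring
    refine (Finset.sum_le_sum f1).trans ?_
    rw [Finset.sum_add_distrib, ← Finset.mul_sum, hS]
    refine add_le_add ?_ ?_
    · refine mul_le_mul_of_nonneg_left ?_ (by positivity)
      exact hAs.sum_le_tsum _ fun i _ => hAnn i
    · refine (sum_G C hC B).trans ?_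
      have : (0 : ℝ) ≤ (3 / 8) ^ Nat.log 2 (B + 1) := by positivity
      nlinarith
  have hX0 : X 0 ≤ S * H := by
    have := hiter B
    rw [hXB, mul_zero, add_zero] at this
    exact this.trans (mul_le_mul_of_nonneg_right hsum hHnn)
  -- the lower bound
  have b1 := hG.step 0
  have b3 := hG.u2 0
  have a1 := ev_le (Bd M κ 0 + 4 * u 0)
  have a2 := od_le (Bd M κ 0 + 4 * u 0)
  have bb := gb 0
  have v0 : coeff f (N 0) = 1 := by
    rw [h3 c T M u κ s f hG hF 0 (N 0) (Or.inl rfl) (by simp only [hN]; omega),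
      pow_even _ (ev_mod _)]
    simp
  have v1 : coeff f (O 0) = -1 := by
    rw [h3 c T M u κ s f hG hF 0 (O 0) (Or.inl rfl) (by simp only [hO]; omega),
      pow_odd _ (od_mod _)]
    simp
  have w0 := norm_coeff_le (f - poly p) (N 0)
  have w1 := norm_coeff_le (f - poly p) (O 0)
  have w2 : (2 : ℂ) = (p (N 0) - p (O 0)) + (coeff (f - poly p) (N 0) -
      coeff (f - poly p) (O 0)) := by
    rw [coeff_sub, coeff_sub, coeff_poly, coeff_poly, v0, v1]
    ring
  have w3 : (2 : ℝ) ≤ X 0 + (H + H) := by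
    have : ‖(2 : ℂ)‖ = 2 := by norm_num
    rw [← this, w2]
    refine (norm_add_le _ _).trans (add_le_add le_rfl ?_)
    exact (norm_sub_le _ _).trans (add_le_add w0 w1)
  rw [div_le_iff₀ (by positivity)]
  linarith

end Pool.Agent.H69.ILV
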