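import Pool.Agent.H95.ILV.Targets

set_option autoImplicit false

open MeasureTheory AddCircle Filter Topology Pool.Agent.H87.Synth Pool.Agent.H23.Synth
  Pool.Agent.H95.ILV

namespace Pool.Agent.H69.ILV

theorem coeff_poly (p : ℤ →₀ ℂ) (n : ℤ) : coeff (poly p) n = p n := by
  unfold poly
  rw [Finsupp.linearCombination_apply, Finsupp.sum, coeff_sum]
  simp only [coeff_smul, coeff_ex, mul_ite, mul_one, mul_zero]
  rw [Finset.sum_ite_eq']
  split_ifs with h
  · rfl
  · exact (Finsupp.notMem_support_iff.1 h).symm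

theorem pow_even (n : ℤ) (h : n % 2 = 0) : ((-1 : ℂ)) ^ n = 1 :=
  Even.neg_one_zpow (Int.even_iff.2 h)

theorem pow_odd (n : ℤ) (h : n % 2 = 1) : ((-1 : ℂ)) ^ n = -1 :=
  Odd.neg_one_zpow (Int.odd_iff.2 h)

theorem same_block (h2 : T_GEL) {c : ℕ} {T M u : ℕ → ℕ} {κ : ℕ → ℕ → ℕ} (hG : Geo c T M u κ)
    (i : ℕ) (m m' : ℤ) (h1 : Bd M κ (i + 1) ≤ m.natAbs) (h1' : m.natAbs < 2 * κ (i + 1) 0)
    (h3 : Bd M κ (i + 1) ≤ m'.natAbs) (h3' : m'.natAbs < 2 * κ (i + 1) 0) :
    ∀ N ∈ Lev M κ, (m.natAbs < N ↔ m'.natAbs < N) := by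
  obtain ⟨ga, gb, gc, gd, ge, -⟩ := h2 c T M u κ hG
  rintro N ⟨i', j, hj, rfl⟩
  rcases Nat.lt_or_ge i' (i + 1) with hlt | hge
  · have := gd (i + 1) i' j hlt hj
    constructor <;> intro h <;> omega
  · have h5 : 2 * κ (i + 1) 0 ≤ 2 * κ i' j := by
      rcases hge.eq_or_lt with he | hl
      · subst he
        have := ga (i + 1) 0 j (Nat.zero_le _) hj
        omega
      · have h6 := ge (i + 1 + 1) i' j hl hj
        have h7 := gb (i + 1)
        omega
    constructor <;> intro h <;> omega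

theorem pf_TRN (h1 : T_PLR) (h2 : T_GEL) : T_TRN := by
  intro C s γ hs c T M u κ f hG hF p hp i n0 n1 n0' n1' e0 e1 e0' e1' a0 b0 a1 b1 a0' b0' a1' b1'
  obtain ⟨ga, gb, gc, gd, ge, -⟩ := h2 c T M u κ hG
  have hstep := hG.step (i + 1)
  have hu2 := hG.u2 (i + 1)
  have hc := gc i (i + 1) (Nat.lt_succ_self i)
  have hbb := gb (i + 1)
  -- equality of the values of `p`
  have heq : ∀ m m' : ℤ, Bd M κ (i + 1) ≤ m.natAbs → m.natAbs < 2 * κ (i + 1) 0 →
      Bd M κ (i + 1) ≤ m'.natAbs → m'.natAbs < 2 * κ (i + 1) 0 → coeff f m = coeff f m' →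
      p m = p m' := by
    intro m m' x1 x2 x3 x4 x5
    exact hp m m' ⟨x5, same_block h2 hG i m m' x1 x2 x3 x4⟩
  have v0 : coeff f n0 = (1 / 3) ^ Nat.log 2 (i + 1) := by
    rw [h1 c T M u κ s f hG hF i n0 (Or.inr (by omega)) (by omega), pow_even n0 e0, mul_one]
  have v1 : coeff f n1 = -(1 / 3) ^ Nat.log 2 (i + 1) := by
    rw [h1 c T M u κ s f hG hF i n1 (Or.inr (by omega)) (by omega), pow_odd n1 e1, mul_neg,
      mul_one]
  have v0' : coeff f n0' = (1 / 3) ^ Nat.log 2 (i + 2) := by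
    rw [h1 c T M u κ s f hG hF (i + 1) n0' (Or.inr (by omega)) (by omega), pow_even n0' e0',
      mul_one]
  have v1' : coeff f n1' = -(1 / 3) ^ Nat.log 2 (i + 2) := by
    rw [h1 c T M u κ s f hG hF (i + 1) n1' (Or.inr (by omega)) (by omega), pow_odd n1' e1',
      mul_neg, mul_one]
  by_cases hlog : Nat.log 2 (i + 2) = Nat.log 2 (i + 1)
  · have q0 : p n0 = p n0' := heq n0 n0' a0 (by omega) (by omega) b0' (by rw [v0, v0', hlog])
    have q1 : p n1 = p n1' := heq n1 n1' a1 (by omega) (by omega) b1' (by rw [v1, v1', hlog])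
    rw [if_pos hlog, hlog, Nat.sub_self, pow_zero, one_mul, zero_mul, add_zero, q0, q1]
  · rw [if_neg hlog]
    set k := Nat.log 2 (i + 1) with hk
    have hk1 : 2 ^ k ≤ i + 1 := Nat.pow_log_le_self 2 (by omega)
    have hk2 : i + 1 < 2 ^ (k + 1) := Nat.lt_pow_succ_log_self (by norm_num) _
    have hkk : k ≤ Nat.log 2 (i + 2) := Nat.log_mono_right (by omega)
    have hk3 : k + 1 ≤ Nat.log 2 (i + 2) := by omega
    have hk4 : 2 ^ (k + 1) ≤ i + 2 := by
      calc 2 ^ (k + 1) ≤ 2 ^ Nat.log 2 (i + 2) := Nat.pow_le_pow_right (by norm_num) hk3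
        _ ≤ i + 2 := Nat.pow_log_le_self 2 (by omega)
    have hi2 : i + 2 = 2 ^ (k + 1) := by omega
    have hi1 : 2 ^ (k + 1) - 1 = i + 1 := by omega
    have hl2 : Nat.log 2 (i + 2) = k + 1 := by
      rw [hi2, Nat.log_pow (by norm_num)]
    rw [hl2, Nat.add_sub_cancel_left, pow_one]
    rw [hl2] at v0' v1'
    have hP : 2 ^ (6 * k + 3) ≤ u (i + 1) := by
      have := hG.gd k
      rwa [hi1] at this
    set b : ℤ := (Bd M κ (i + 1) : ℤ) + 2 * u (i + 1) with hb
    have hga : ∀ a : ℕ, a < 2 ^ (6 * k + 3) →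
        coeff f (b + a) = (1 / 3) ^ (k + 1) * (s k a : ℂ) := by
      intro a ha
      have := hF.ga k a ha
      simp only [hi1] at this
      exact this
    set y : ℤ → ℂ := fun t => if t = 3 then p n0 else if t = -3 then p n1 else
      if t = 1 then p n0' else p n1' with hy
    have y3 : y 3 = p n0 := by simp [hy]
    have ym3 : y (-3) = p n1 := by simp [hy]
    have y1 : y 1 = p n0' := by simp [hy]
    have ym1 : y (-1) = p n1' := by simp [hy]
    have hpy : ∀ a : ℕ, a < 2 ^ (6 * k + 3) → p (b + a) = y (s k a) := by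
      intro a ha
      have hnat : (b + a).natAbs = Bd M κ (i + 1) + 2 * u (i + 1) + a := by omega
      have z1 : Bd M κ (i + 1) ≤ (b + a).natAbs := by omega
      have z2 : (b + a).natAbs < 2 * κ (i + 1) 0 := by omega
      rcases (hs k).val a with hv | hv | hv | hv
      · rw [hv, y3]
        refine heq _ _ z1 z2 a0 (by omega) ?_
        rw [hga a ha, hv, v0, pow_succ]
        push_cast
        ring
      · rw [hv, y1]
        refine heq _ _ z1 z2 (by omega) b0' ?_
        rw [hga a ha, hv, v0']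
        push_cast
        ring
      · rw [hv, ym1]
        refine heq _ _ z1 z2 (by omega) b1' ?_
        rw [hga a ha, hv, v1']
        push_cast
        ring
      · rw [hv, ym3]
        refine heq _ _ z1 z2 a1 (by omega) ?_
        rw [hga a ha, hv, v1, pow_succ]
        push_cast
        ring
    have hsy := (hs k).sum y
    have hsid := (hs k).sum (fun t => (t : ℂ))
    rw [y3, y1, ym1, ym3] at hsy
    have hbd := (hs k).bd (f - poly p) b
    have hS : ∑ a ∈ Finset.range (2 ^ (6 * k + 3)), γ k a * coeff (f - poly p) (b + a) =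
        -((p n0 - p n1) - 3 * (p n0' - p n1')) := by
      have e : ∀ a ∈ Finset.range (2 ^ (6 * k + 3)), γ k a * coeff (f - poly p) (b + a) =
          (1 / 3) ^ (k + 1) * (γ k a * (fun t : ℤ => (t : ℂ)) (s k a)) - γ k a * y (s k a) := by
        intro a ha
        have ha' := Finset.mem_range.1 ha
        rw [coeff_sub, coeff_poly, hga a ha', hpy a ha']
        ring
      rw [Finset.sum_congr rfl e, Finset.sum_sub_distrib, ← Finset.mul_sum, hsid, hsy]
      push_cast
      ring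
    rw [hS, norm_neg] at hbd
    have h9 : p n0 - p n1 = ((p n0 - p n1) - 3 * (p n0' - p n1')) + 3 * (p n0' - p n1') := by
      ring
    calc ‖p n0 - p n1‖ = ‖((p n0 - p n1) - 3 * (p n0' - p n1')) + 3 * (p n0' - p n1')‖ := by
          rw [← h9]
      _ ≤ ‖(p n0 - p n1) - 3 * (p n0' - p n1')‖ + ‖3 * (p n0' - p n1')‖ := norm_add_le _ _
      _ ≤ C * (1 / 8) ^ k * ‖f - poly p‖ + 3 * ‖p n0' - p n1'‖ := by
          refine add_le_add hbd (le_of_eq ?_)
          rw [norm_mul]
          norm_num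
      _ = 3 * ‖p n0' - p n1'‖ + C * (1 / 8) ^ k * ‖f - poly p‖ := add_comm _ _

end Pool.Agent.H69.ILV
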